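import Pool.Agent.Helper79.GS.St3

/-!
# Project GS, module PAD: matchings of given size and perfect matchings
-/

set_option autoImplicit false

namespace Pool.Agent.Helper44.GS

open Pool.Agent.Helper79.GS

private theorem pad_back (E : ℕ → ℕ → Prop) (Nb m n : ℕ) (hm : m ≤ Nb) (hn : 2 * Nb ≤ n)
    (σ : Equiv.Perm (Fin n)) (hσ : ∀ i : Fin n, padE E Nb m i.val (σ i).val) : Mat E m := by
  classical
  -- rows below `Nb`
  set A : Finset (Fin n) := Finset.univ.filter (fun i => i.val < Nb) with hA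
  set S : Finset (Fin n) := A.filter (fun i => (σ i).val < Nb) with hS
  set T : Finset (Fin n) := A.filter (fun i => ¬ (σ i).val < Nb) with hT
  have hAc : A.card = Nb := by
    have hmap : A.map Fin.valEmbedding = Finset.range Nb := by
      ext x
      simp only [Finset.mem_map, Finset.mem_range, hA, Finset.mem_filter, Finset.mem_univ,
        true_and, Fin.valEmbedding_apply]
      constructor
      · rintro ⟨i, hi, rfl⟩
        exact hi
      · intro hx
        exact ⟨⟨x, by omega⟩, hx, rfl⟩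
    rw [← Finset.card_map Fin.valEmbedding, hmap, Finset.card_range]
  have hsum : S.card + T.card = Nb := by
    rw [← hAc]
    exact Finset.card_filter_add_card_filter_not _
  have hTc : T.card ≤ Nb - m := by
    have himg : T.image (fun i => (σ i).val) ⊆ Finset.Ico Nb (2 * Nb - m) := by
      intro x hx
      rw [Finset.mem_image] at hx
      obtain ⟨i, hi, rfl⟩ := hx
      rw [hT, Finset.mem_filter, hA, Finset.mem_filter] at hi
      have h1 := hi.1.2
      have h2 := hi.2
      rw [Finset.mem_Ico]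
      rcases hσ i with h | h | h | h
      · exact absurd h.2.1 h2
      · exact ⟨h.2.1, h.2.2⟩
      · omega
      · omega
    have hinj : Set.InjOn (fun i : Fin n => (σ i).val) (T : Set (Fin n)) := by
      intro a _ b _ h
      exact σ.injective (Fin.ext h)
    have := Finset.card_le_card himg
    rw [Finset.card_image_of_injOn hinj, Nat.card_Ico] at this
    omega
  have hSc : m ≤ S.card := by omega
  obtain ⟨S', hS', hS'c⟩ := Finset.exists_subset_card_eq hSc
  have hmem : ∀ i ∈ S', i.val < Nb ∧ (σ i).val < Nb := by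
    intro i hi
    have := hS' hi
    rw [hS, Finset.mem_filter, hA, Finset.mem_filter] at this
    exact ⟨this.1.2, this.2⟩
  refine ⟨S'.image (fun i => (i.val, (σ i).val)), ?_, ?_, ?_, ?_⟩
  · rw [Finset.card_image_of_injective, hS'c]
    intro a b h
    exact Fin.ext (congrArg Prod.fst h)
  · intro e he
    rw [Finset.mem_image] at he
    obtain ⟨i, hi, rfl⟩ := he
    have h := hmem i hi
    rcases hσ i with h' | h' | h' | h'
    · exact h'.2.2
    · have := h.2
      omega
    · have := h.1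
      omega
    · have := h.1
      omega
  · intro a ha b hb hab
    rw [Finset.mem_coe, Finset.mem_image] at ha hb
    obtain ⟨i, hi, rfl⟩ := ha
    obtain ⟨i', hi', rfl⟩ := hb
    have : i = i' := Fin.ext hab
    rw [this]
  · intro a ha b hb hab
    rw [Finset.mem_coe, Finset.mem_image] at ha hb
    obtain ⟨i, hi, rfl⟩ := ha
    obtain ⟨i', hi', rfl⟩ := hb
    have : i = i' := σ.injective (Fin.ext hab)
    rw [this]

private theorem pad_fwd (E : ℕ → ℕ → Prop) (Nb m n : ℕ) (hE : ∀ i j, E i j → i < Nb ∧ j < Nb)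
    (hm : m ≤ Nb) (hn : 2 * Nb ≤ n) (hM : Mat E m) :
    ∃ σ : Equiv.Perm (Fin n), ∀ i : Fin n, padE E Nb m i.val (σ i).val := by
  classical
  obtain ⟨M, hMc, hME, hM1, hM2⟩ := hM
  set R : Finset ℕ := M.image Prod.fst with hR
  set C : Finset ℕ := M.image Prod.snd with hC
  have hRc : R.card = m := by rw [hR, Finset.card_image_of_injOn hM1, hMc]
  have hCc : C.card = m := by rw [hC, Finset.card_image_of_injOn hM2, hMc]
  have hRs : R ⊆ Finset.range Nb := by
    intro x hx
    rw [hR, Finset.mem_image] at hx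
    obtain ⟨e, he, rfl⟩ := hx
    exact Finset.mem_range.2 (hE _ _ (hME e he)).1
  have hCs : C ⊆ Finset.range Nb := by
    intro x hx
    rw [hC, Finset.mem_image] at hx
    obtain ⟨e, he, rfl⟩ := hx
    exact Finset.mem_range.2 (hE _ _ (hME e he)).2
  set R' := Finset.range Nb \ R with hR'
  set C' := Finset.range Nb \ C with hC'
  set D := Finset.Ico Nb (2 * Nb - m) with hD
  have hR'c : R'.card = Nb - m := by
    rw [hR', Finset.card_sdiff_of_subset hRs, hRc, Finset.card_range]
  have hC'c : C'.card = Nb - m := by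
    rw [hC', Finset.card_sdiff_of_subset hCs, hCc, Finset.card_range]
  have hDc : D.card = Nb - m := by
    rw [hD, Nat.card_Ico]
    omega
  -- partners
  have hp : ∃ p : ℕ → ℕ, ∀ e ∈ M, p e.1 = e.2 := by
    refine ⟨fun i => if h : ∃ j, (i, j) ∈ M then h.choose else 0, ?_⟩
    intro e he
    have h : ∃ j, (e.1, j) ∈ M := ⟨e.2, he⟩
    have h1 : (e.1, h.choose) ∈ M := h.choose_spec
    have h2 : (e.1, h.choose) = e := hM1 h1 he rfl
    simp only [dif_pos h]
    exact congrArg Prod.snd h2
  obtain ⟨p, hp⟩ := hp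
  have hpR : ∀ i ∈ R, E i (p i) ∧ p i ∈ C := by
    intro i hi
    rw [hR, Finset.mem_image] at hi
    obtain ⟨e, he, rfl⟩ := hi
    rw [hp e he]
    exact ⟨hME e he, Finset.mem_image_of_mem _ he⟩
  have hpinj : ∀ i ∈ R, ∀ i' ∈ R, p i = p i' → i = i' := by
    intro i hi i' hi' h
    rw [hR, Finset.mem_image] at hi hi'
    obtain ⟨e, he, rfl⟩ := hi
    obtain ⟨e', he', rfl⟩ := hi'
    rw [hp e he, hp e' he'] at h
    rw [hM2 he he' h]
  let e1 : {x // x ∈ R'} ≃ {x // x ∈ D} := Finset.equivOfCardEq (by rw [hR'c, hDc])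
  let e2 : {x // x ∈ D} ≃ {x // x ∈ C'} := Finset.equivOfCardEq (by rw [hDc, hC'c])
  have hf : ∃ f : ℕ → ℕ, (∀ i ∈ R', f i ∈ D) ∧ ∀ i ∈ R', ∀ i' ∈ R', f i = f i' → i = i' := by
    refine ⟨fun i => if h : i ∈ R' then (e1 ⟨i, h⟩ : ℕ) else 0, ?_, ?_⟩
    · intro i hi
      simp only [dif_pos hi]
      exact (e1 ⟨i, hi⟩).2
    · intro i hi i' hi' h
      simp only [dif_pos hi, dif_pos hi'] at h
      have := e1.injective (Subtype.ext h)
      exact congrArg Subtype.val this
  have hg : ∃ g : ℕ → ℕ, (∀ i ∈ D, g i ∈ C') ∧ ∀ i ∈ D, ∀ i' ∈ D, g i = g i' → i = i' := by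
    refine ⟨fun i => if h : i ∈ D then (e2 ⟨i, h⟩ : ℕ) else 0, ?_, ?_⟩
    · intro i hi
      simp only [dif_pos hi]
      exact (e2 ⟨i, hi⟩).2
    · intro i hi i' hi' h
      simp only [dif_pos hi, dif_pos hi'] at h
      have := e2.injective (Subtype.ext h)
      exact congrArg Subtype.val this
  obtain ⟨f, hf1, hf2⟩ := hf
  obtain ⟨g, hg1, hg2⟩ := hg
  set F : ℕ → ℕ := fun i => if i ∈ R then p i else if i ∈ R' then f i else if i ∈ D then g i else i
    with hF
  have hdec : ∀ i, (i ∈ R ∧ F i = p i) ∨ (i ∈ R' ∧ F i = f i) ∨ (i ∈ D ∧ F i = g i) ∨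
      (2 * Nb - m ≤ i ∧ F i = i) := by
    intro i
    simp only [hF]
    by_cases h1 : i ∈ R
    · left
      exact ⟨h1, if_pos h1⟩
    · by_cases h2 : i ∈ R'
      · right; left
        exact ⟨h2, by rw [if_neg h1, if_pos h2]⟩
      · by_cases h3 : i ∈ D
        · right; right; left
          exact ⟨h3, by rw [if_neg h1, if_neg h2, if_pos h3]⟩
        · right; right; right
          refine ⟨?_, by rw [if_neg h1, if_neg h2, if_neg h3]⟩
          by_contra hlt
          rw [not_le] at hlt
          by_cases h4 : i < Nb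
          · exact h2 (Finset.mem_sdiff.2 ⟨Finset.mem_range.2 h4, h1⟩)
          · exact h3 (Finset.mem_Ico.2 ⟨not_lt.1 h4, hlt⟩)
  -- zones of the values
  have hCz : ∀ x ∈ C, x < Nb ∧ x ∉ C' := by
    intro x hx
    refine ⟨Finset.mem_range.1 (hCs hx), ?_⟩
    intro h
    exact (Finset.mem_sdiff.1 h).2 hx
  have hC'z : ∀ x ∈ C', x < Nb := fun x hx => Finset.mem_range.1 (Finset.mem_sdiff.1 hx).1
  have hDz : ∀ x ∈ D, Nb ≤ x ∧ x < 2 * Nb - m := fun x hx => Finset.mem_Ico.1 hx
  have hR'z : ∀ x ∈ R', x < Nb := fun x hx => Finset.mem_range.1 (Finset.mem_sdiff.1 hx).1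
  have hpad : ∀ i, padE E Nb m i (F i) := by
    intro i
    rcases hdec i with ⟨h, e⟩ | ⟨h, e⟩ | ⟨h, e⟩ | ⟨h, e⟩
    · left
      rw [e]
      have h1 := (hpR i h).1
      exact ⟨(hE _ _ h1).1, (hE _ _ h1).2, h1⟩
    · right; left
      rw [e]
      have h1 := hDz _ (hf1 i h)
      exact ⟨hR'z i h, h1.1, h1.2⟩
    · right; right; left
      rw [e]
      have h1 := hDz _ h
      exact ⟨h1.1, h1.2, hC'z _ (hg1 i h)⟩
    · right; right; right
      exact ⟨h, e⟩
  have hlt : ∀ i, i < n → F i < n := by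
    intro i hi
    rcases hpad i with h | h | h | h
    · have := h.2.1
      omega
    · have := h.2.2
      omega
    · have := h.2.2
      omega
    · rw [h.2]
      exact hi
  have hinj : ∀ i i', F i = F i' → i = i' := by
    intro i i' h
    rcases hdec i with ⟨h1, e⟩ | ⟨h1, e⟩ | ⟨h1, e⟩ | ⟨h1, e⟩ <;>
    rcases hdec i' with ⟨h1', e'⟩ | ⟨h1', e'⟩ | ⟨h1', e'⟩ | ⟨h1', e'⟩ <;>
    rw [e, e'] at h
    · exact hpinj i h1 i' h1' h
    · have a := (hCz _ (hpR i h1).2).1
      have b := (hDz _ (hf1 i' h1')).1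
      omega
    · have a := (hCz _ (hpR i h1).2).2
      have b := hg1 i' h1'
      rw [h] at a
      exact absurd b a
    · have a := (hCz _ (hpR i h1).2).1
      omega
    · have a := (hCz _ (hpR i' h1').2).1
      have b := (hDz _ (hf1 i h1)).1
      omega
    · exact hf2 i h1 i' h1' h
    · have a := hC'z _ (hg1 i' h1')
      have b := (hDz _ (hf1 i h1)).1
      omega
    · have b := (hDz _ (hf1 i h1)).2
      omega
    · have a := (hCz _ (hpR i' h1').2).2
      have b := hg1 i h1
      rw [h] at b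
      exact absurd b a
    · have a := hC'z _ (hg1 i h1)
      have b := (hDz _ (hf1 i' h1')).1
      omega
    · exact hg2 i h1 i' h1' h
    · have a := hC'z _ (hg1 i h1)
      omega
    · have a := (hCz _ (hpR i' h1').2).1
      omega
    · have b := (hDz _ (hf1 i' h1')).2
      omega
    · have a := hC'z _ (hg1 i' h1')
      omega
    · exact h
  have hinj' : Function.Injective (fun i : Fin n => (⟨F i.val, hlt i.val i.isLt⟩ : Fin n)) := by
    intro a b h
    exact Fin.ext (hinj _ _ (congrArg Fin.val h))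
  refine ⟨Equiv.ofBijective _ (Finite.injective_iff_bijective.1 hinj'), ?_⟩
  intro i
  exact hpad i.val

/-- **PAD** (matchings of given size and perfect matchings). -/
theorem hPAD : StPAD := by
  intro E Nb m n hE hm hn
  constructor
  · exact pad_fwd E Nb m n hE hm hn
  · rintro ⟨σ, hσ⟩
    exact pad_back E Nb m n hm hn σ hσ

end Pool.Agent.Helper44.GS
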